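import Mathlib

set_option autoImplicit false

/-!
# Posted pricing is not a constant factor approximation with private outside options
-/

namespace Pool.Agent.Results.MP_ec2b5b_lc.NoConstant

open MeasureTheory Finset

/-- The options of the buyer: decline (`none`) or a lottery `(x, p)`: winning probability `x`
and payment `p`. -/
abbrev Choice : Type := Option (ℝ × ℝ)

/-- Utility of a buyer with value `v` and outside option `c`. -/
def util (v c : ℝ) : Choice → ℝ
  | none => c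
  | some m => v * m.1 - m.2

/-- Payment made under an option. -/
def pay : Choice → ℝ
  | none => 0
  | some m => m.2

/-- The options available under the menu `M`: decline, or a lottery of the menu. -/
def available (M : Set (ℝ × ℝ)) : Set Choice := {o | o = none ∨ ∃ m ∈ M, o = some m}

/-- The utility-maximizing options of type `(v, c)`. -/
def best (M : Set (ℝ × ℝ)) (v c : ℝ) : Set Choice :=
  {o | o ∈ available M ∧ ∀ o' ∈ available M, util v c o' ≤ util v c o}

/-- The payment of type `(v, c)`, ties broken in the seller's favour. -/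
noncomputable def payment (M : Set (ℝ × ℝ)) (v c : ℝ) : ℝ := sSup (pay '' best M v c)

/-- The revenue of the menu `M` when `v ~ F` and `c ~ G` are independent. -/
noncomputable def revenue (F G : Measure ℝ) (M : Set (ℝ × ℝ)) : ℝ :=
  ∫ v, ∫ c, payment M v c ∂G ∂F

/-- A menu is a set of lotteries with winning probabilities in `[0,1]`. -/
def IsMenu (M : Set (ℝ × ℝ)) : Prop := ∀ m ∈ M, 0 ≤ m.1 ∧ m.1 ≤ 1

/-- The revenues of all menus. -/
def menuRevenues (F G : Measure ℝ) : Set ℝ := {r | ∃ M, IsMenu M ∧ r = revenue F G M}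

/-- The optimal revenue. -/
noncomputable def OPT (F G : Measure ℝ) : ℝ := sSup (menuRevenues F G)

/-- The best revenue of a posted price `P ≥ 0`, that is of a menu `{(1, P)}`. -/
noncomputable def PP (F G : Measure ℝ) : ℝ :=
  sSup {r | ∃ P : ℝ, 0 ≤ P ∧ r = revenue F G {(1, P)}}

/-! ### Finitely supported measures -/

/-- The measure giving mass `w i` to the point `x i`, `i < n`. -/
noncomputable def disc (n : ℕ) (w x : ℕ → ℝ) : Measure ℝ :=
  ∑ i ∈ range n, ENNReal.ofReal (w i) • Measure.dirac (x i)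

theorem integral_disc (n : ℕ) (w x : ℕ → ℝ) (hw : ∀ i, 0 ≤ w i) (f : ℝ → ℝ) :
    ∫ a, f a ∂(disc n w x) = ∑ i ∈ range n, w i * f (x i) := by
  unfold disc
  rw [integral_finsetSum_measure]
  · refine Finset.sum_congr rfl fun i _ => ?_
    rw [integral_smul_measure, integral_dirac, ENNReal.toReal_ofReal (hw i), smul_eq_mul]
  · intro i _
    refine Integrable.smul_measure ?_ ENNReal.ofReal_ne_top
    exact integrable_dirac (by simp)

theorem disc_apply (n : ℕ) (w x : ℕ → ℝ) (s : Set ℝ) (hs : MeasurableSet s) :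
    disc n w x s = ∑ i ∈ range n, ENNReal.ofReal (w i) * s.indicator 1 (x i) := by
  unfold disc
  rw [Measure.finsetSum_apply]
  refine Finset.sum_congr rfl fun i _ => ?_
  rw [Measure.smul_apply, Measure.dirac_apply' _ hs, smul_eq_mul]

theorem disc_prob (n : ℕ) (w x : ℕ → ℝ) (hw : ∀ i, 0 ≤ w i) (h1 : ∑ i ∈ range n, w i = 1) :
    IsProbabilityMeasure (disc n w x) := by
  constructor
  rw [disc_apply _ _ _ _ MeasurableSet.univ]
  simp only [Set.indicator_univ, Pi.one_apply, mul_one]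
  rw [← ENNReal.ofReal_sum_of_nonneg fun i _ => hw i, h1, ENNReal.ofReal_one]

theorem disc_nonneg (n : ℕ) (w x : ℕ → ℝ) (hx : ∀ i, 0 ≤ x i) :
    disc n w x (Set.Iio 0) = 0 := by
  rw [disc_apply _ _ _ _ measurableSet_Iio]
  refine Finset.sum_eq_zero fun i _ => ?_
  rw [Set.indicator_of_notMem (by simpa using hx i), mul_zero]

/-! ### Payments -/

theorem pay_le {M : Set (ℝ × ℝ)} (hM : IsMenu M) {v c : ℝ} (hv : 0 ≤ v) (hc : 0 ≤ c)
    {o : Choice} (ho : o ∈ best M v c) : pay o ≤ v := by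
  have h1 := ho.2 none (Or.inl rfl)
  rcases ho.1 with rfl | ⟨m, hm, rfl⟩
  · exact hv
  · simp only [util, pay] at *
    have := hM m hm
    nlinarith

theorem payment_le {M : Set (ℝ × ℝ)} (hM : IsMenu M) {v c : ℝ} (hv : 0 ≤ v) (hc : 0 ≤ c) :
    payment M v c ≤ v := by
  refine Real.sSup_le ?_ hv
  rintro _ ⟨o, ho, rfl⟩
  exact pay_le hM hv hc ho

theorem le_payment {M : Set (ℝ × ℝ)} (hM : IsMenu M) {v c : ℝ} (hv : 0 ≤ v) (hc : 0 ≤ c)
    {o : Choice} (ho : o ∈ best M v c) : pay o ≤ payment M v c := by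
  refine le_csSup ⟨v, ?_⟩ ⟨o, ho, rfl⟩
  rintro _ ⟨o, ho, rfl⟩
  exact pay_le hM hv hc ho

theorem payment_nonneg {M : Set (ℝ × ℝ)} (hp : ∀ m ∈ M, 0 ≤ m.2) (v c : ℝ) :
    0 ≤ payment M v c := by
  refine Real.sSup_nonneg ?_
  rintro _ ⟨o, ho, rfl⟩
  rcases ho.1 with rfl | ⟨m, hm, rfl⟩
  · exact le_rfl
  · exact hp m hm

open Classical in
theorem payment_price_le {P v c : ℝ} (hP : 0 ≤ P) :
    payment {(1, P)} v c ≤ if c ≤ v - P then P else 0 := by
  refine Real.sSup_le ?_ (by split_ifs <;> linarith)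
  rintro _ ⟨o, ho, rfl⟩
  have h1 := ho.2 none (Or.inl rfl)
  rcases ho.1 with rfl | ⟨m, hm, rfl⟩
  · simp only [pay]
    split_ifs <;> linarith
  · rw [Set.mem_singleton_iff] at hm
    subst hm
    simp only [util, pay] at *
    rw [if_pos (by linarith)]

/-! ### The instance -/

/-- Unnormalised probabilities of the outside options, times `4^n`. -/
noncomputable def g' (j : ℕ) : ℝ := if j = 0 then 1 else 3 * 4 ^ (j - 1)

/-- The outside options. -/
noncomputable def cc (j : ℕ) : ℝ := j * (j - 1)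

theorem g'_nonneg (j : ℕ) : 0 ≤ g' j := by
  unfold g'; split_ifs <;> positivity

theorem cc_nonneg (j : ℕ) : 0 ≤ cc j := by
  unfold cc
  rcases Nat.eq_zero_or_pos j with rfl | h
  · simp
  · have : (1 : ℝ) ≤ j := by exact_mod_cast h
    exact mul_nonneg (by linarith) (by linarith)

theorem sum_g' (t : ℕ) : ∑ j ∈ range (t + 1), g' j = 4 ^ t := by
  induction t with
  | zero => simp [g']
  | succ t ih =>
    rw [Finset.sum_range_succ, ih]
    simp only [g', Nat.succ_ne_zero, if_false, Nat.add_sub_cancel]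
    ring

theorem two_pow_ge (r : ℕ) : (2 * (r : ℝ) + 1) ≤ 2 * 2 ^ r := by
  induction r with
  | zero => norm_num
  | succ r ih =>
    push_cast
    rw [pow_succ]
    have : (1 : ℝ) ≤ 2 ^ r := one_le_pow₀ (by norm_num)
    linarith

open Classical in
/-- The key estimate: few buyers of value `s ^ 2` accept a price `P`. -/
theorem accept_le (n s : ℕ) {P : ℝ} (hP : 0 < P) :
    (∑ j ∈ range (n + 1), if cc j ≤ (s : ℝ) ^ 2 - P then g' j else 0) * ((s : ℝ) + P) ^ 2 ≤
      10 * (s : ℝ) ^ 2 * 4 ^ s := by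
  rw [← Finset.sum_filter]
  set A := (range (n + 1)).filter fun j => cc j ≤ (s : ℝ) ^ 2 - P with hA
  rcases A.eq_empty_or_nonempty with h | h
  · rw [h, Finset.sum_empty, zero_mul]; positivity
  · obtain ⟨t, ht2, h1⟩ : ∃ t : ℕ, cc t ≤ (s : ℝ) ^ 2 - P ∧ ∑ j ∈ A, g' j ≤ 4 ^ t := by
      refine ⟨A.max' h, (Finset.mem_filter.1 (A.max'_mem h)).2, ?_⟩
      rw [← sum_g' (A.max' h)]
      refine Finset.sum_le_sum_of_subset_of_nonneg (fun j hj => ?_) fun j _ _ => g'_nonneg j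
      rw [Finset.mem_range]
      exact Nat.lt_succ_of_le (A.le_max' j hj)
    clear_value A
    clear hA
    have hts : t ≤ s := by
      by_contra hlt
      push Not at hlt
      have h3 : (s : ℝ) + 1 ≤ t := by exact_mod_cast hlt
      unfold cc at ht2
      have h4 : (0 : ℝ) ≤ s := Nat.cast_nonneg s
      nlinarith
    obtain ⟨r, rfl⟩ := Nat.exists_eq_add_of_le hts
    have hr0 : (0 : ℝ) ≤ r := Nat.cast_nonneg r
    have ht0 : (0 : ℝ) ≤ t := Nat.cast_nonneg t
    unfold cc at ht2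
    push_cast at ht2 ⊢
    have hPle : P ≤ (2 * r + 1) * ((t : ℝ) + r) := by nlinarith
    have h2r := two_pow_ge r
    have hs0 : 0 ≤ (t : ℝ) + r := by positivity
    have h5 : P ≤ 2 * 2 ^ r * ((t : ℝ) + r) :=
      hPle.trans (mul_le_mul_of_nonneg_right h2r hs0)
    have h6 : P ^ 2 ≤ 4 * 4 ^ r * ((t : ℝ) + r) ^ 2 := by
      have : P ^ 2 ≤ (2 * 2 ^ r * ((t : ℝ) + r)) ^ 2 := pow_le_pow_left₀ hP.le h5 2
      have e : (2 * 2 ^ r * ((t : ℝ) + r)) ^ 2 = 4 * 4 ^ r * ((t : ℝ) + r) ^ 2 := by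
        have : (4 : ℝ) ^ r = (2 ^ r) ^ 2 := by
          rw [← pow_mul, mul_comm, pow_mul]; norm_num
        rw [this]; ring
      rwa [e] at this
    have h7 : ((t : ℝ) + r + P) ^ 2 ≤ 10 * 4 ^ r * ((t : ℝ) + r) ^ 2 := by
      have h8 : (1 : ℝ) ≤ 4 ^ r := one_le_pow₀ (by norm_num)
      have h9 : ((t : ℝ) + r + P) ^ 2 ≤ 2 * ((t : ℝ) + r) ^ 2 + 2 * P ^ 2 := by
        nlinarith [sq_nonneg ((t : ℝ) + r - P)]
      have h10 : ((t : ℝ) + r) ^ 2 ≤ 4 ^ r * ((t : ℝ) + r) ^ 2 := by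
        nlinarith [sq_nonneg ((t : ℝ) + r)]
      nlinarith
    calc (∑ j ∈ A, g' j) * ((t : ℝ) + r + P) ^ 2 ≤ 4 ^ t * ((t : ℝ) + r + P) ^ 2 :=
          mul_le_mul_of_nonneg_right h1 (by positivity)
      _ ≤ 4 ^ t * (10 * 4 ^ r * ((t : ℝ) + r) ^ 2) :=
          mul_le_mul_of_nonneg_left h7 (by positivity)
      _ = 10 * ((t : ℝ) + r) ^ 2 * 4 ^ (t + r) := by rw [pow_add]; ring

/-- The normalising constant. -/
noncomputable def Z (n : ℕ) : ℝ := ∑ i ∈ range n, 1 / (4 ^ (i + 1) * ((i : ℝ) + 1) ^ 2)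

/-- The probabilities of the values. -/
noncomputable def fw (n i : ℕ) : ℝ := 1 / (4 ^ (i + 1) * ((i : ℝ) + 1) ^ 2) / Z n

/-- The distribution of the value. -/
noncomputable def FF (n : ℕ) : Measure ℝ := disc n (fw n) fun i => ((i : ℝ) + 1) ^ 2

/-- The distribution of the outside option. -/
noncomputable def GG (n : ℕ) : Measure ℝ := disc (n + 1) (fun j => g' j / 4 ^ n) cc

theorem Z_pos {n : ℕ} (hn : 0 < n) : 0 < Z n := by
  refine Finset.sum_pos (fun i _ => by positivity) ?_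
  exact Finset.nonempty_range_iff.2 hn.ne'

theorem fw_nonneg (n i : ℕ) : 0 ≤ fw n i := by
  unfold fw
  refine div_nonneg (by positivity) ?_
  exact Finset.sum_nonneg fun i _ => by positivity

theorem gw_nonneg (n j : ℕ) : 0 ≤ g' j / 4 ^ n := div_nonneg (g'_nonneg j) (by positivity)

theorem FF_prob {n : ℕ} (hn : 0 < n) : IsProbabilityMeasure (FF n) := by
  refine disc_prob _ _ _ (fw_nonneg n) ?_
  unfold fw
  rw [← Finset.sum_div]
  exact div_self (Z_pos hn).ne'

theorem GG_prob (n : ℕ) : IsProbabilityMeasure (GG n) := by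
  refine disc_prob _ _ _ (gw_nonneg n) ?_
  rw [← Finset.sum_div, sum_g']
  exact div_self (by positivity)

theorem revenue_eq (n : ℕ) (M : Set (ℝ × ℝ)) : revenue (FF n) (GG n) M =
    ∑ i ∈ range n, fw n i * ∑ j ∈ range (n + 1),
      g' j / 4 ^ n * payment M (((i : ℝ) + 1) ^ 2) (cc j) := by
  unfold revenue FF GG
  rw [integral_disc _ _ _ (fw_nonneg n)]
  refine Finset.sum_congr rfl fun i _ => ?_
  rw [integral_disc _ _ _ (gw_nonneg n)]

theorem menuRevenues_bdd (n : ℕ) : BddAbove (menuRevenues (FF n) (GG n)) := by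
  refine ⟨∑ i ∈ range n, fw n i * ∑ j ∈ range (n + 1), g' j / 4 ^ n * (((i : ℝ) + 1) ^ 2), ?_⟩
  rintro _ ⟨M, hM, rfl⟩
  rw [revenue_eq]
  refine Finset.sum_le_sum fun i _ => mul_le_mul_of_nonneg_left ?_ (fw_nonneg n i)
  refine Finset.sum_le_sum fun j _ => mul_le_mul_of_nonneg_left ?_ (gw_nonneg n j)
  exact payment_le hM (by positivity) (cc_nonneg j)

open Classical in
theorem price_le {n : ℕ} (hn : 0 < n) {P : ℝ} (hP : 0 ≤ P) :
    revenue (FF n) (GG n) {(1, P)} ≤ 10 / (Z n * 4 ^ n) := by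
  have hZ := Z_pos hn
  rcases hP.eq_or_lt with rfl | hP
  · refine le_trans ?_ (by positivity : (0 : ℝ) ≤ 10 / (Z n * 4 ^ n))
    rw [revenue_eq]
    refine Finset.sum_nonpos fun i _ => mul_nonpos_of_nonneg_of_nonpos (fw_nonneg n i) ?_
    refine Finset.sum_nonpos fun j _ => mul_nonpos_of_nonneg_of_nonpos (gw_nonneg n j) ?_
    refine (payment_price_le le_rfl).trans ?_
    split_ifs <;> exact le_rfl
  · rw [revenue_eq]
    have h1 : ∀ i ∈ range n, fw n i * ∑ j ∈ range (n + 1),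
        g' j / 4 ^ n * payment {(1, P)} (((i : ℝ) + 1) ^ 2) (cc j) ≤
        10 / (Z n * 4 ^ n) * (P * (1 / ((i : ℝ) + P) - 1 / (((i + 1 : ℕ) : ℝ) + P))) := by
      intro i _
      have h2 : ∑ j ∈ range (n + 1),
          g' j / 4 ^ n * payment {(1, P)} (((i : ℝ) + 1) ^ 2) (cc j) ≤
          P / 4 ^ n * ∑ j ∈ range (n + 1),
            if cc j ≤ (((i + 1 : ℕ) : ℝ)) ^ 2 - P then g' j else 0 := by
        rw [Finset.mul_sum]
        refine Finset.sum_le_sum fun j _ => ?_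
        refine (mul_le_mul_of_nonneg_left (payment_price_le hP.le) (gw_nonneg n j)).trans ?_
        push_cast
        split_ifs
        · exact le_of_eq (by ring)
        · simp
      have h3 := accept_le n (i + 1) hP
      set T := ∑ j ∈ range (n + 1), if cc j ≤ (((i + 1 : ℕ) : ℝ)) ^ 2 - P then g' j else 0
      have hi : (0 : ℝ) ≤ i := Nat.cast_nonneg i
      push_cast at h3 ⊢
      have h4 : T ≤ 10 * ((i : ℝ) + 1) ^ 2 * 4 ^ (i + 1) / ((i : ℝ) + 1 + P) ^ 2 := by
        rw [le_div_iff₀ (by positivity)]; exact h3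
      calc fw n i * ∑ j ∈ range (n + 1),
          g' j / 4 ^ n * payment {(1, P)} (((i : ℝ) + 1) ^ 2) (cc j)
          ≤ fw n i * (P / 4 ^ n * T) := mul_le_mul_of_nonneg_left h2 (fw_nonneg n i)
        _ ≤ fw n i * (P / 4 ^ n *
            (10 * ((i : ℝ) + 1) ^ 2 * 4 ^ (i + 1) / ((i : ℝ) + 1 + P) ^ 2)) := by
            refine mul_le_mul_of_nonneg_left ?_ (fw_nonneg n i)
            exact mul_le_mul_of_nonneg_left h4 (by positivity)
        _ = 10 / (Z n * 4 ^ n) * (P * (1 / ((i : ℝ) + 1 + P) ^ 2)) := by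
            unfold fw
            field_simp
        _ ≤ 10 / (Z n * 4 ^ n) * (P * (1 / ((i : ℝ) + P) - 1 / ((i : ℝ) + 1 + P))) := by
            refine mul_le_mul_of_nonneg_left ?_ (by positivity)
            refine mul_le_mul_of_nonneg_left ?_ hP.le
            rw [div_sub_div _ _ (by positivity) (by positivity)]
            have e : 1 * ((i : ℝ) + 1 + P) - ((i : ℝ) + P) * 1 = 1 := by ring
            rw [e]
            apply one_div_le_one_div_of_le (by positivity)
            nlinarith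
    refine (Finset.sum_le_sum h1).trans ?_
    rw [← Finset.mul_sum, ← Finset.mul_sum,
      Finset.sum_range_sub' (fun i : ℕ => 1 / ((i : ℝ) + P)) n]
    have h5 : P * (1 / (((0 : ℕ) : ℝ) + P) - 1 / ((n : ℝ) + P)) ≤ 1 := by
      have : 0 ≤ 1 / ((n : ℝ) + P) := by positivity
      have h6 : P * (1 / (((0 : ℕ) : ℝ) + P)) = 1 := by
        rw [Nat.cast_zero, zero_add]; field_simp
      nlinarith
    calc _ ≤ 10 / (Z n * 4 ^ n) * 1 := mul_le_mul_of_nonneg_left h5 (by positivity)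
      _ = _ := mul_one _

/-- The menu. -/
def menu (n : ℕ) : Set (ℝ × ℝ) :=
  {m | ∃ k : ℕ, 1 ≤ k ∧ k ≤ n ∧
    m = (2 * (k : ℝ) / (2 * k + 1), ((k : ℝ) ^ 2 + k) / (2 * k + 1))}

theorem menu_isMenu (n : ℕ) : IsMenu (menu n) := by
  rintro m ⟨k, _, _, rfl⟩
  have : (0 : ℝ) ≤ k := Nat.cast_nonneg k
  refine ⟨by positivity, ?_⟩
  rw [div_le_one (by positivity)]
  linarith

theorem menu_pay (n : ℕ) : ∀ m ∈ menu n, 0 ≤ m.2 := by
  rintro m ⟨k, _, _, rfl⟩
  positivity

theorem menu_payment {n i j : ℕ} (hi : i < n) (hj : j ≤ i + 1) :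
    ((i : ℝ) + 1) / 2 ≤ payment (menu n) (((i : ℝ) + 1) ^ 2) (cc j) := by
  have hi0 : (0 : ℝ) ≤ i := Nat.cast_nonneg i
  have hmem : (some (2 * ((i + 1 : ℕ) : ℝ) / (2 * ((i + 1 : ℕ) : ℝ) + 1),
      (((i + 1 : ℕ) : ℝ) ^ 2 + ((i + 1 : ℕ) : ℝ)) / (2 * ((i + 1 : ℕ) : ℝ) + 1)) : Choice) ∈
      best (menu n) (((i : ℝ) + 1) ^ 2) (cc j) := by
    refine ⟨Or.inr ⟨_, ⟨i + 1, by omega, by omega, rfl⟩, rfl⟩, ?_⟩
    have hu : util (((i : ℝ) + 1) ^ 2) (cc j)
        (some (2 * ((i + 1 : ℕ) : ℝ) / (2 * ((i + 1 : ℕ) : ℝ) + 1),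
        (((i + 1 : ℕ) : ℝ) ^ 2 + ((i + 1 : ℕ) : ℝ)) / (2 * ((i + 1 : ℕ) : ℝ) + 1))) =
        ((i : ℝ) + 1) * i := by
      simp only [util]
      push_cast
      field_simp
      ring
    rw [hu]
    rintro o' (rfl | ⟨m, ⟨k, hk1, hk2, rfl⟩, rfl⟩)
    · simp only [util, cc]
      have h1 : (j : ℝ) ≤ i + 1 := by exact_mod_cast hj
      rcases Nat.eq_zero_or_pos j with rfl | h
      · simp; positivity
      · have h2 : (1 : ℝ) ≤ j := by exact_mod_cast h
        nlinarith
    · simp only [util]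
      have hk0 : (0 : ℝ) ≤ k := Nat.cast_nonneg k
      have hint : (0 : ℝ) ≤ (((i : ℝ) + 1) - k) * (((i : ℝ) + 1) - k - 1) := by
        have : (0 : ℤ) ≤ (((i : ℤ) + 1) - k) * (((i : ℤ) + 1) - k - 1) := by
          rcases lt_or_ge ((i : ℤ) + 1) (k + 1) with h | h
          · have : (i : ℤ) + 1 - k ≤ 0 := by omega
            nlinarith
          · have : 0 ≤ (i : ℤ) + 1 - k - 1 := by omega
            nlinarith
        exact_mod_cast this
      rw [← mul_div_assoc, ← sub_div, div_le_iff₀ (by positivity)]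
      nlinarith
  have h := le_payment (menu_isMenu n) (by positivity) (cc_nonneg j) hmem
  refine le_trans ?_ h
  simp only [pay]
  push_cast
  rw [le_div_iff₀ (by positivity)]
  nlinarith

theorem menu_revenue {n : ℕ} (hn : 0 < n) :
    1 / (Z n * 4 ^ n) * ((∑ i ∈ range n, 1 / ((i : ℝ) + 1)) / 2) ≤
      revenue (FF n) (GG n) (menu n) := by
  have hZ := Z_pos hn
  rw [revenue_eq, Finset.sum_div, Finset.mul_sum]
  refine Finset.sum_le_sum fun i hi => ?_
  have hin : i < n := Finset.mem_range.1 hi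
  have hi0 : (0 : ℝ) ≤ i := Nat.cast_nonneg i
  have h1 : 4 ^ (i + 1) / 4 ^ n * (((i : ℝ) + 1) / 2) ≤ ∑ j ∈ range (n + 1),
      g' j / 4 ^ n * payment (menu n) (((i : ℝ) + 1) ^ 2) (cc j) := by
    rw [← sum_g' (i + 1), Finset.sum_div, Finset.sum_mul]
    refine le_trans (Finset.sum_le_sum fun j hj => ?_) (Finset.sum_le_sum_of_subset_of_nonneg
      (f := fun j => g' j / 4 ^ n * payment (menu n) (((i : ℝ) + 1) ^ 2) (cc j))
      (s := range (i + 1 + 1)) ?_ fun j _ _ => ?_)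
    · refine mul_le_mul_of_nonneg_left (menu_payment hin ?_) (gw_nonneg n j)
      have := Finset.mem_range.1 hj
      omega
    · intro j hj
      rw [Finset.mem_range] at hj ⊢
      omega
    · exact mul_nonneg (gw_nonneg n j) (payment_nonneg (menu_pay n) _ _)
  refine le_trans (le_of_eq ?_) (mul_le_mul_of_nonneg_left h1 (fw_nonneg n i))
  unfold fw
  field_simp

/-- **Disproof of Q1**: for every `C` there are distributions `F`, `G` on `[0, ∞)` with
`OPT(F, G) > C * PP(F, G)`; moreover `F` and `G` are finitely supported, `OPT(F, G)` is finite, and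
a single finite menu beats `C` times every posted price. -/
theorem result (C : ℝ) : ∃ F G : Measure ℝ,
    IsProbabilityMeasure F ∧ IsProbabilityMeasure G ∧
    F (Set.Iio 0) = 0 ∧ G (Set.Iio 0) = 0 ∧
    BddAbove (menuRevenues F G) ∧
    (∃ M : Set (ℝ × ℝ), M.Finite ∧ IsMenu M ∧
      ∀ P : ℝ, 0 ≤ P → C * revenue F G {(1, P)} < revenue F G M) ∧
    C * PP F G < OPT F G := by
  obtain ⟨n, hn0, hn⟩ : ∃ n : ℕ, 0 < n ∧ 20 * max C 0 < ∑ i ∈ range n, 1 / ((i : ℝ) + 1) := by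
    have h := Real.tendsto_sum_range_one_div_nat_succ_atTop
    obtain ⟨n, h1, h2⟩ := ((h.eventually_gt_atTop (20 * max C 0)).and
      (Filter.eventually_gt_atTop 0)).exists
    exact ⟨n, h2, h1⟩
  have hZ := Z_pos hn0
  have hpos : 0 < 1 / (Z n * 4 ^ n) := by positivity
  have hrev := menu_revenue hn0
  have hbig : max C 0 * (10 / (Z n * 4 ^ n)) < revenue (FF n) (GG n) (menu n) := by
    refine lt_of_lt_of_le ?_ hrev
    have e : max C 0 * (10 / (Z n * 4 ^ n)) = 1 / (Z n * 4 ^ n) * (20 * max C 0 / 2) := by ring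
    rw [e]
    exact mul_lt_mul_of_pos_left (by linarith) hpos
  have hnn : ∀ P : ℝ, 0 ≤ P → 0 ≤ revenue (FF n) (GG n) {(1, P)} := by
    intro P hP
    rw [revenue_eq]
    refine Finset.sum_nonneg fun i _ => mul_nonneg (fw_nonneg n i) ?_
    refine Finset.sum_nonneg fun j _ => mul_nonneg (gw_nonneg n j) ?_
    refine payment_nonneg ?_ _ _
    intro m hm
    rw [Set.mem_singleton_iff] at hm
    rw [hm]; exact hP
  refine ⟨FF n, GG n, FF_prob hn0, GG_prob n, disc_nonneg _ _ _ fun i => by positivity,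
    disc_nonneg _ _ _ cc_nonneg, menuRevenues_bdd n, ⟨menu n, ?_, menu_isMenu n, ?_⟩, ?_⟩
  · refine (Set.finite_range fun k : Fin (n + 1) =>
      (2 * ((k : ℕ) : ℝ) / (2 * ((k : ℕ) : ℝ) + 1),
        (((k : ℕ) : ℝ) ^ 2 + ((k : ℕ) : ℝ)) / (2 * ((k : ℕ) : ℝ) + 1))).subset ?_
    rintro m ⟨k, hk1, hk2, rfl⟩
    exact ⟨⟨k, by omega⟩, rfl⟩
  · intro P hP
    refine lt_of_le_of_lt ?_ hbig
    refine (mul_le_mul_of_nonneg_right (le_max_left C 0) (hnn P hP)).trans ?_
    exact mul_le_mul_of_nonneg_left (price_le hn0 hP) (le_max_right C 0)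
  · have hPP : PP (FF n) (GG n) ≤ 10 / (Z n * 4 ^ n) := by
      refine Real.sSup_le ?_ (by positivity)
      rintro _ ⟨P, hP, rfl⟩
      exact price_le hn0 hP
    have hPP0 : 0 ≤ PP (FF n) (GG n) := by
      refine Real.sSup_nonneg ?_
      rintro _ ⟨P, hP, rfl⟩
      exact hnn P hP
    have hO : revenue (FF n) (GG n) (menu n) ≤ OPT (FF n) (GG n) :=
      le_csSup (menuRevenues_bdd n) ⟨menu n, menu_isMenu n, rfl⟩
    refine lt_of_lt_of_le (lt_of_le_of_lt ?_ hbig) hO
    refine (mul_le_mul_of_nonneg_right (le_max_left C 0) hPP0).trans ?_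
    exact mul_le_mul_of_nonneg_left hPP (le_max_right C 0)

end Pool.Agent.Results.MP_ec2b5b_lc.NoConstant
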